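import Pool.Agent.Lib_helper93.Ebe.wB1
import Pool.Agent.Lib_helper26.Ebe.wB2

/-! Block wB of MP_ce7760_an: the exceptional case `n = 7`, `m = 23` does not occur. -/

namespace Pool.Agent.Lib_helper97.Ebe

open MvPolynomial Module Pool.Agent.Lib_helper26.Ebe Pool.Agent.Lib_helper26.SOS

theorem wB {D ρ : ℕ} {ε : Fin ρ → ℝ} {p : Fin 23 → MvPolynomial (Fin 7) ℂ}
    {A : MvPolynomial (Fin 7 ⊕ Fin 7) ℂ}
    {V : Submodule ℂ (MvPolynomial (Fin 7) ℂ)} {f : Fin ρ → MvPolynomial (Fin 7) ℂ}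
    (s : Setting 7 23 D ρ p A V f ε)
    (hX : Gen (fun g : Fin 7 × Fin 2 → ℂ => ∀ y ∈ Yf f,
      sub g y ∈ Submodule.span ℂ {v | ∃ w : Fin 7 → ℂ,
        (∀ x, ∑ k, mv g x k * w k = 0) ∧ v = sub g (sp w A)}))
    (hu2 : rk (Yf f) 2 = 3) (hu3 : 5 ≤ rk (Yf f) 3)
    (hN3 : ¬ N2 V 3) (hN5 : ¬ N2 V 5)
    (h2 : rk V 2 = 4) (h3 : rk V 3 = 8) (h4 : rk V 4 = 13) : False := by
  obtain rfl : D = 3 := wB1 s (by norm_num) hX hu2 hN3 h2 h3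
  exact wB2_pr s hu3 hN5 h3 h4

end Pool.Agent.Lib_helper97.Ebe
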