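import Pool.Agent.Lib_helper93.Ebe.wBc
import Pool.Agent.Lib_helper97.Ebe.E5

/-! Block wB of MP_ce7760_an, first step: the degree is three (helper93). -/

namespace Pool.Agent.Lib_helper97.Ebe

open MvPolynomial Module Pool.Agent.Lib_helper26.Ebe Pool.Agent.Lib_helper26.SOS

variable {n m D ρ : ℕ} {p : Fin m → MvPolynomial (Fin n) ℂ}
    {A : MvPolynomial (Fin n ⊕ Fin n) ℂ} {V : Submodule ℂ (MvPolynomial (Fin n) ℂ)}
    {f : Fin ρ → MvPolynomial (Fin n) ℂ} {ε : Fin ρ → ℝ}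

theorem wB_line (F : MvPolynomial (Fin n) ℂ) (w w₁ : Fin n → ℂ) (κ : ℂ)
    (h : ∀ t, t ≠ κ → eval (w + t • w₁) F = 0) : eval w F = 0 := by
  let Q : Polynomial ℂ :=
    aeval (fun i => Polynomial.C (w i) + Polynomial.X * Polynomial.C (w₁ i)) F
  have hQ : ∀ c : ℂ, Q.eval c = eval (w + c • w₁) F := by
    intro c
    have : ((Polynomial.evalRingHom c).comp
        ((aeval (fun i => Polynomial.C (w i) + Polynomial.X * Polynomial.C (w₁ i)) :
          MvPolynomial (Fin n) ℂ →ₐ[ℂ] Polynomial ℂ) : MvPolynomial (Fin n) ℂ →+* Polynomial ℂ)) =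
        eval (w + c • w₁) := by
      apply MvPolynomial.ringHom_ext
      · intro r
        simp [Polynomial.algebraMap_eq]
      · intro i
        simp
        ring
    exact RingHom.congr_fun this F
  have hQ0 : Q = 0 := by
    by_contra hne
    have hfin := Q.rootSet_finite ℂ
    apply Set.infinite_univ (α := ℂ)
    refine (hfin.union (Set.finite_singleton κ)).subset fun t _ => ?_
    by_cases ht : t = κ
    · exact Or.inr ht
    · left
      rw [Polynomial.mem_rootSet]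
      refine ⟨hne, ?_⟩
      rw [Polynomial.coe_aeval_eq_eval, hQ]
      exact h t ht
  have h0 := hQ 0
  rw [hQ0, Polynomial.eval_zero, zero_smul, add_zero] at h0
  exact h0.symm

theorem wB_func (s : Setting n m D ρ p A V f ε) {k : ℕ} (g : Fin n × Fin k → ℂ)
    (l : MvPolynomial (Fin k) ℂ →ₗ[ℂ] ℂ) :
    ∃ F : MvPolynomial (Fin n) ℂ, ∀ w, eval w F = l (sub g (sp w A)) := by
  refine ⟨∑ i, C ((ε i : ℂ) * l (sub g (f i))) * cj (f i), fun w => ?_⟩
  rw [map_sum, s.hAe, sp_dg, map_sum, map_sum]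
  refine Finset.sum_congr rfl fun i _ => ?_
  rw [map_mul, eval_C, map_smul, map_smul, smul_eq_mul]
  ring

theorem wB_dual {k : ℕ} {S : Submodule ℂ (MvPolynomial (Fin k) ℂ)} {v : MvPolynomial (Fin k) ℂ}
    (h : v ∉ S) : ∃ l : MvPolynomial (Fin k) ℂ →ₗ[ℂ] ℂ, l v ≠ 0 ∧ ∀ u ∈ S, l u = 0 := by
  obtain ⟨l, h1, h2⟩ := Submodule.exists_dual_map_eq_bot_of_notMem h inferInstance
  refine ⟨l, h1, fun u hu => ?_⟩
  have : l u ∈ S.map l := ⟨u, hu, rfl⟩
  rw [h2] at this
  exact this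

theorem wB_closure (s : Setting n m D ρ p A V f ε) {k : ℕ} (g : Fin n × Fin k → ℂ)
    (S : Submodule ℂ (MvPolynomial (Fin k) ℂ)) (w w₁ : Fin n → ℂ) (κ : ℂ)
    (h : ∀ t, t ≠ κ → sub g (sp (w + t • w₁) A) ∈ S) : sub g (sp w A) ∈ S := by
  by_contra hc
  obtain ⟨l, h1, h2⟩ := wB_dual hc
  obtain ⟨F, hF⟩ := wB_func s g l
  apply h1
  rw [← hF]
  apply wB_line F w w₁ κ
  intro t ht
  rw [hF]
  exact h2 _ (h t ht)

theorem wB_lf_zero {b c : Fin n → ℂ} (hb : b ≠ 0) (h : ∀ z ∈ kr b, ∑ i, c i * z i = 0) :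
    ∃ κ : ℂ, c = κ • b := by
  apply eq_smul_of_not_ind _ hb
  intro hI
  apply hI.symm.not_dvd
  rw [lf_dvd_iff hb]
  intro z hz
  rw [eval_lf]
  exact h z hz

/-- `A_w` restricted to the kernel of `b` for `w` orthogonal to it. -/
theorem wB_orth (s : Setting n m D ρ p A V f ε) {j : ℕ} {g : Fin n × Fin (j + 1) → ℂ}
    (hg : Function.Injective (mv g)) {b : Fin (j + 1) → ℂ} (hb : b (Fin.last j) ≠ 0)
    (w : Fin n → ℂ) (hw : ∀ x, ∑ k, mv (mulg g (wNS_K b)) x k * w k = 0) :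
    sub (mulg g (wNS_K b)) (sp w A) ∈
      (U (V.map (sub g).toLinearMap) b).map (sub (wNS_K b)).toLinearMap := by
  have hb0 : b ≠ 0 := fun h => hb (by rw [h]; rfl)
  obtain ⟨w₁, hw₁⟩ := exists_lift_functional hg b
  have h1 : ∀ l, ∑ i, w₁ i * g (i, l) = b l := by
    intro l
    have h2 := hw₁ (Pi.single l 1)
    rw [mv_single, krl_single, krl_apply, mul_one] at h2
    exact h2
  obtain ⟨κ, hκ⟩ := wB_lf_zero (b := b) (c := fun l => ∑ i, w i * g (i, l)) hb0 (by
    intro z hz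
    rw [← SetLike.mem_coe, ← wNS_range hb] at hz
    obtain ⟨x, rfl⟩ := hz
    rw [← hw x, mv_mulg]
    generalize mv (wNS_K b) x = z
    simp only [mv, Finset.sum_mul]
    rw [Finset.sum_comm]
    refine Finset.sum_congr rfl fun i _ => Finset.sum_congr rfl fun l _ => ?_
    ring)
  apply wB_closure s _ _ w w₁ (-κ)
  intro t ht
  have h3 : sub g (lf (w + t • w₁)) = C (κ + t) * lf b := by
    rw [sub_lf, ← lf_smul]
    congr 1
    funext l
    have h4 : ∑ i, w i * g (i, l) = κ * b l := congrFun hκ l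
    simp only [Pi.add_apply, Pi.smul_apply, smul_eq_mul, add_mul, Finset.sum_add_distrib]
    rw [h4, ← h1 l, Finset.mul_sum, Finset.mul_sum]
    congr 1
    exact Finset.sum_congr rfl fun i _ => by ring
  have h4 : lf (w + t • w₁) * sp (w + t • w₁) A ∈ V := by
    rw [s.hV]
    exact lf_mul_sp_mem s.hA _
  have h5 : sub g (lf (w + t • w₁) * sp (w + t • w₁) A) ∈ V.map (sub g).toLinearMap :=
    ⟨_, h4, rfl⟩
  rw [map_mul, h3, mul_assoc, ← smul_eq_C_mul] at h5
  have h6 : κ + t ≠ 0 := fun h => ht (by linear_combination h)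
  have h7 := Submodule.smul_mem _ (κ + t)⁻¹ h5
  rw [smul_smul, inv_mul_cancel₀ h6, one_smul] at h7
  refine ⟨sub g (sp (w + t • w₁) A), h7, ?_⟩
  exact (AlgHom.congr_fun (sub_mulg g (wNS_K b)) _).symm

theorem wB_X (i : Fin 2) : (X i : MvPolynomial (Fin 2) ℂ) = lf (Pi.single i 1) := by
  rw [lf_single, C_1, one_mul]

theorem wB_plane (V2 : Submodule ℂ (MvPolynomial (Fin 2) ℂ)) [FiniteDimensional ℂ V2]
    (h4 : finrank ℂ V2 = 4) {φ h : MvPolynomial (Fin 2) ℂ} (hφ : φ ≠ 0)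
    (h1 : ∀ c c' : Fin 2 → ℂ, lf c * lf c' * φ ∈ V2) (h2 : ∀ c : Fin 2 → ℂ, lf c * h ∈ V2)
    (h3 : ∀ c : Fin 2 → ℂ, h ≠ lf c * φ) :
    ∃ (c : Fin 2 → ℂ) (ψ : MvPolynomial (Fin 2) ℂ), φ = lf c * ψ ∧ ψ ∣ h := by
  classical
  let v : Fin 5 → MvPolynomial (Fin 2) ℂ :=
    ![X 0 * X 0 * φ, X 0 * X 1 * φ, X 1 * X 1 * φ, X 0 * h, X 1 * h]
  have hv : ∀ i, v i ∈ V2 := by
    intro i
    fin_cases i
    · change X 0 * X 0 * φ ∈ V2
      rw [wB_X]; exact h1 _ _
    · change X 0 * X 1 * φ ∈ V2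
      rw [wB_X, wB_X]; exact h1 _ _
    · change X 1 * X 1 * φ ∈ V2
      rw [wB_X]; exact h1 _ _
    · change X 0 * h ∈ V2
      rw [wB_X]; exact h2 _
    · change X 1 * h ∈ V2
      rw [wB_X]; exact h2 _
  have hnli : ¬ LinearIndependent ℂ v := by
    intro hli
    have := le_finrank_of_li v hli hv
    omega
  rw [Fintype.not_linearIndependent_iff] at hnli
  obtain ⟨c, hc, i₀, hi₀⟩ := hnli
  have hrel : (C (c 0) * X 0 * X 0 + C (c 1) * X 0 * X 1 + C (c 2) * X 1 * X 1) * φ +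
      lf ![c 3, c 4] * h = 0 := by
    rw [← hc, Fin.sum_univ_five]
    have e : lf ![c 3, c 4] = C (c 3) * X 0 + C (c 4) * (X 1 : MvPolynomial (Fin 2) ℂ) := by
      unfold lf
      rw [Fin.sum_univ_two]
      rfl
    rw [e]
    simp only [smul_eq_C_mul]
    change _ = C (c 0) * (X 0 * X 0 * φ) + C (c 1) * (X 0 * X 1 * φ) + C (c 2) * (X 1 * X 1 * φ) +
      C (c 3) * (X 0 * h) + C (c 4) * (X 1 * h)
    ring
  set Q : MvPolynomial (Fin 2) ℂ := C (c 0) * X 0 * X 0 + C (c 1) * X 0 * X 1 + C (c 2) * X 1 * X 1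
    with hQ
  have hQh : Q.IsHomogeneous 2 := by
    have hx : ∀ (a : ℂ) (i j : Fin 2), (C a * X i * X j : MvPolynomial (Fin 2) ℂ).IsHomogeneous 2 :=
      by
      intro a i j
      have := ((isHomogeneous_C (Fin 2) a).mul (isHomogeneous_X ℂ i)).mul (isHomogeneous_X ℂ j)
      simpa using this
    exact ((hx _ _ _).add (hx _ _ _)).add (hx _ _ _)
  by_cases hl : (![c 3, c 4] : Fin 2 → ℂ) = 0
  · exfalso
    rw [hl, lf_zero, zero_mul, add_zero] at hrel
    have hQ0 := (mul_eq_zero.mp hrel).resolve_right hφ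
    have e0 := congrArg (eval (![1, 0] : Fin 2 → ℂ)) hQ0
    have e1 := congrArg (eval (![0, 1] : Fin 2 → ℂ)) hQ0
    have e2 := congrArg (eval (![1, 1] : Fin 2 → ℂ)) hQ0
    simp [hQ] at e0 e1 e2
    have e3 : c 3 = 0 := congrFun hl 0
    have e4 : c 4 = 0 := congrFun hl 1
    have e1' : c 1 = 0 := by
      rw [e0, e1] at e2
      simpa using e2
    apply hi₀
    fin_cases i₀
    · exact e0
    · exact e1'
    · exact e1
    · exact e3
    · exact e4
  · have hpr := lf_prime hl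
    have hd : lf ![c 3, c 4] ∣ Q * φ := by
      refine ⟨-h, ?_⟩
      linear_combination hrel
    rcases hpr.dvd_or_dvd hd with hd | hd
    · exfalso
      obtain ⟨Q', hQ'⟩ := hd
      have h5 : Q'.IsHomogeneous (2 - 1) := isHomogeneous_of_lf_mul hl (by rw [← hQ']; exact hQh)
      obtain ⟨η, rfl⟩ := exists_lf_of_homogeneous h5
      apply h3 ((-1 : ℂ) • η)
      rw [hQ'] at hrel
      have h6 : lf ![c 3, c 4] * (lf η * φ + h) = 0 := by linear_combination hrel
      have h7 := (mul_eq_zero.mp h6).resolve_left hpr.ne_zero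
      rw [lf_smul]
      rw [map_neg, C_1]
      linear_combination h7
    · obtain ⟨ψ, hψ⟩ := hd
      refine ⟨_, ψ, hψ, ⟨-Q, ?_⟩⟩
      rw [hψ] at hrel
      have h6 : lf ![c 3, c 4] * (Q * ψ + h) = 0 := by linear_combination hrel
      have h7 := (mul_eq_zero.mp h6).resolve_left hpr.ne_zero
      linear_combination h7

/-- The multiples of `φ` by linear forms. -/
noncomputable def wB_S (φ : MvPolynomial (Fin 2) ℂ) : Submodule ℂ (MvPolynomial (Fin 2) ℂ) :=
  LinearMap.range ((LinearMap.mulRight ℂ φ) ∘ₗ lfL 2)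

theorem wB_mem_S {φ u : MvPolynomial (Fin 2) ℂ} : u ∈ wB_S φ ↔ ∃ c, lf c * φ = u := Iff.rfl

theorem wB_finrank_S (φ : MvPolynomial (Fin 2) ℂ) : finrank ℂ (wB_S φ) ≤ 2 := by
  have := LinearMap.finrank_range_le ((LinearMap.mulRight ℂ φ) ∘ₗ lfL 2)
  rwa [finrank_fin_fun] at this

/-- Step 1: the degree is three. -/
theorem wB1 (s : Setting n m D ρ p A V f ε) (hn : 3 ≤ n)
    (hX : Gen (fun g : Fin n × Fin 2 → ℂ => ∀ y ∈ Yf f,
      sub g y ∈ Submodule.span ℂ {v | ∃ w : Fin n → ℂ,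
        (∀ x, ∑ k, mv g x k * w k = 0) ∧ v = sub g (sp w A)}))
    (hu2 : rk (Yf f) 2 = 3) (hN3 : ¬ N2 V 3) (h2 : rk V 2 = 4) (h3 : rk V 3 = 8) : D = 3 := by
  classical
  have := s.fd
  have hfdY := finiteDimensional_Yf (f := f)
  obtain ⟨g, b, φ, -, ⟨hR1, hR2⟩, ⟨⟨⟨⟨hT1, hT2⟩, hT3⟩, hT4⟩, hT5⟩, hb, hφ, hφ1, hφ2,
    y, hy, hy0, hyd⟩ := wB_exists (n := n) (j := 2) V (by norm_num) hN3
      (Q := fun _ => True) (Gen.of_forall (fun _ => trivial))
      ((gen_rk V 3).and (gen_injective hn))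
      ((((hX.and (gen_rk (Yf f) 2)).and (gen_rk V 2)).and
        (cop_restrict (le_refl 2) V s.hVD s.hcop)).and (gen_injective (by omega : 2 ≤ n)))
  have hb0 : b ≠ 0 := fun h => hb (by rw [h]; rfl)
  set K := wNS_K b with hK
  set g' := mulg g K with hg'
  set W3 := V.map (sub g).toLinearMap with hW3
  set U3 := U W3 b with hU3
  have hfdW3 : FiniteDimensional ℂ W3 := inferInstance
  have hfdU3 : FiniteDimensional ℂ U3 := U_fd W3 hb0
  have hrange : Set.range (mv K) = kr b := wNS_range hb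
  set UB := U3.map (sub K).toLinearMap with hUB
  have hfdUB : FiniteDimensional ℂ UB := inferInstance
  set Y2 := (Yf f).map (sub g').toLinearMap with hY2
  have hfdY2 : FiniteDimensional ℂ Y2 := inferInstance
  set V2 := V.map (sub g').toLinearMap with hV2
  have hfdV2 : FiniteDimensional ℂ V2 := inferInstance
  have hV2' : V2 = W3.map (sub K).toLinearMap := map_sub_mulg V g K
  -- dimensions
  have e1 := finrank_map_add_van W3 K
  rw [← hV2', hrange, hT3, hR1, h2, h3] at e1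
  have e2 : finrank ℂ U3 = finrank ℂ (van W3 (kr b)) := finrank_U W3 hb0
  have e3 : finrank ℂ UB + finrank ℂ (van U3 (kr b)) = finrank ℂ U3 := by
    have := finrank_map_add_van U3 K
    rwa [hrange] at this
  have e4 : 1 ≤ finrank ℂ (van U3 (kr b)) := by
    have : FiniteDimensional ℂ (van U3 (kr b)) := Submodule.finiteDimensional_of_le (van_le _ _)
    rw [Nat.one_le_iff_ne_zero]
    intro h0
    rw [Submodule.finrank_eq_zero] at h0
    have h7 : y ∈ van U3 (kr b) := (mem_van_kr hb0).mpr ⟨hy, hyd⟩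
    rw [h0, Submodule.mem_bot] at h7
    exact hy0 h7
  have e5 : finrank ℂ UB ≤ 3 := by omega
  -- the restriction of `Y`
  have hYU : Y2 ≤ UB := by
    rintro _ ⟨z, hz, rfl⟩
    have h4 := hT1 z hz
    refine (Submodule.span_le.mpr ?_) h4
    rintro _ ⟨w, hw, rfl⟩
    exact wB_orth s hR2 hb w hw
  have hYU' : Y2 = UB := Submodule.eq_of_le_of_finrank_le hYU (by rw [hT2, hu2]; exact e5)
  -- the polynomial `φ` on the plane
  set φ2 := sub K φ with hφ2d
  have hφ20 : φ2 ≠ 0 := fun h => hφ ((wNS_sub_eq_zero hb φ).mp h)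
  have hS1 : ∀ c : Fin 2 → ℂ, lf c * φ2 ∈ Y2 := by
    intro c
    rw [hYU']
    obtain ⟨u, hu, hud⟩ := hφ1 (Fin.snoc c 0)
    have h4 := (wNS_sub_eq_zero hb _).mpr hud
    rw [map_sub, map_mul, wNS_sub_lf, sub_eq_zero] at h4
    have h5 : sub K u ∈ UB := ⟨u, hu, rfl⟩
    rw [hK, h4, mul_assoc, ← smul_eq_C_mul] at h5
    have h6 := Submodule.smul_mem _ (b (Fin.last 2))⁻¹ h5
    rwa [smul_smul, inv_mul_cancel₀ hb, one_smul] at h6
  have hS2 : ∀ c c' : Fin 2 → ℂ, lf c * lf c' * φ2 ∈ V2 := by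
    intro c c'
    rw [hV2']
    obtain ⟨u, hu, hud⟩ := hφ2 (Fin.snoc c 0) (Fin.snoc c' 0)
    have h4 := (wNS_sub_eq_zero hb _).mpr hud
    rw [map_sub, map_mul, map_mul, wNS_sub_lf, wNS_sub_lf, sub_eq_zero] at h4
    have h5 : sub K u ∈ W3.map (sub K).toLinearMap := ⟨u, hu, rfl⟩
    have h7 : C (b (Fin.last 2)) * lf c * (C (b (Fin.last 2)) * lf c') * sub (wNS_K b) φ =
      (b (Fin.last 2) * b (Fin.last 2)) • (lf c * lf c' * φ2) := by
      rw [smul_eq_C_mul, C_mul]
      ring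
    rw [hK, h4, h7] at h5
    have h8 : b (Fin.last 2) * b (Fin.last 2) ≠ 0 := mul_ne_zero hb hb
    have h6 := Submodule.smul_mem _ (b (Fin.last 2) * b (Fin.last 2))⁻¹ h5
    rwa [smul_smul, inv_mul_cancel₀ h8, one_smul] at h6
  have hSY : wB_S φ2 ≤ Y2 := by
    rintro _ ⟨c, rfl⟩
    exact hS1 c
  -- an element outside
  have hYS : ¬ Y2 ≤ wB_S φ2 := by
    intro h
    have : FiniteDimensional ℂ (wB_S φ2) := Submodule.finiteDimensional_of_le hSY
    have h4 := Submodule.finrank_mono h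
    have h5 := wB_finrank_S φ2
    rw [hT2, hu2] at h4
    omega
  have hYspan : Y2 = Submodule.span ℂ (Set.range fun w : Fin n → ℂ => sub g' (sp w A)) := by
    rw [hY2, Yf_eq s, Submodule.map_span, ← Set.range_comp]
    rfl
  obtain ⟨w₀, hw₀⟩ : ∃ w₀ : Fin n → ℂ, sub g' (sp w₀ A) ∉ wB_S φ2 := by
    by_contra hc
    push Not at hc
    apply hYS
    rw [hYspan, Submodule.span_le]
    rintro _ ⟨w, rfl⟩
    exact hc w
  set h := sub g' (sp w₀ A) with hh
  have hhY : h ∈ Y2 := by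
    rw [hYspan]
    exact Submodule.subset_span ⟨w₀, rfl⟩
  have hYsup : Y2 = wB_S φ2 ⊔ Submodule.span ℂ {h} := by
    symm
    apply Submodule.eq_of_le_of_finrank_le
    · refine sup_le hSY ?_
      rw [Submodule.span_singleton_le_iff_mem]
      exact hhY
    · rw [hT2, hu2]
      have hfdS : FiniteDimensional ℂ (wB_S φ2) := Submodule.finiteDimensional_of_le hSY
      have h4 : wB_S φ2 < wB_S φ2 ⊔ Submodule.span ℂ {h} := by
        refine lt_of_le_of_ne le_sup_left fun he => hw₀ ?_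
        rw [he]
        exact Submodule.mem_sup_right (Submodule.mem_span_singleton_self _)
      have h5 := Submodule.finrank_lt_finrank_of_lt h4
      have h6 : 2 ≤ finrank ℂ (wB_S φ2) := by
        have h7 : Function.Injective ((LinearMap.mulRight ℂ φ2) ∘ₗ lfL 2) := by
          rw [← LinearMap.ker_eq_bot, LinearMap.ker_eq_bot']
          intro c hc
          have hc' : lf c * φ2 = 0 := hc
          by_contra hne
          exact mul_ne_zero (lf_ne_zero hne) hφ20 hc'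
        have h8 := LinearMap.finrank_range_of_inj h7
        rw [finrank_fin_fun] at h8
        exact h8.ge
      omega
  -- `S_1 h` is contained in `V`
  have hRV : ∀ w : Fin n → ℂ, sub g' (lf w) * sub g' (sp w A) ∈ V2 := by
    intro w
    have h4 : lf w * sp w A ∈ V := by
      rw [s.hV]
      exact lf_mul_sp_mem s.hA _
    rw [← map_mul]
    exact ⟨_, h4, rfl⟩
  obtain ⟨l, hl1, hl2⟩ := wB_dual hw₀
  obtain ⟨F, hF⟩ := wB_func s g' l
  have hF0 : F ≠ 0 := by
    rintro rfl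
    apply hl1
    rw [hh, ← hF, map_zero]
  have hgen : Gen (fun w : Fin n → ℂ => sub g' (lf w) * h ∈ V2) := by
    refine ⟨F, hF0, fun w hw => ?_⟩
    have h4 : sub g' (sp w A) ∈ Y2 := by
      rw [hYspan]
      exact Submodule.subset_span ⟨w, rfl⟩
    rw [hYsup, Submodule.mem_sup] at h4
    obtain ⟨u, ⟨c, hc⟩, u', hu', huu⟩ := h4
    obtain ⟨a, rfl⟩ := Submodule.mem_span_singleton.mp hu'
    have hc' : lf c * φ2 = u := hc
    have ha : a ≠ 0 := by
      rintro rfl
      apply hw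
      rw [hF, ← huu, zero_smul, add_zero]
      exact hl2 _ ⟨c, hc⟩
    have h5 := hRV w
    rw [← huu, mul_add, ← hc'] at h5
    have h6 : sub g' (lf w) * (lf c * φ2) ∈ V2 := by
      rw [sub_lf, ← mul_assoc]
      exact hS2 _ _
    have h7 := (Submodule.add_mem_iff_right _ h6).mp h5
    rw [mul_smul_comm] at h7
    have h8 := Submodule.smul_mem _ a⁻¹ h7
    rwa [smul_smul, inv_mul_cancel₀ ha, one_smul] at h8
  have hall : ∀ w : Fin n → ℂ, sub g' (lf w) * h ∈ V2 := by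
    let T : (Fin n → ℂ) →ₗ[ℂ] MvPolynomial (Fin 2) ℂ :=
      (LinearMap.mulRight ℂ h) ∘ₗ (sub g').toLinearMap ∘ₗ lfL n
    intro w
    exact gen_mem_submodule (S := V2.comap T) hgen w
  have hall2 : ∀ c : Fin 2 → ℂ, lf c * h ∈ V2 := by
    intro c
    obtain ⟨w, hw⟩ := exists_lift_functional hT5 c
    have h4 := hall w
    rw [sub_lf] at h4
    have h5 : (fun l => ∑ i, w i * g' (i, l)) = c := by
      funext l
      have h6 := hw (Pi.single l 1)
      rw [mv_single, krl_single, krl_apply, mul_one] at h6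
      exact h6
    rwa [h5] at h4
  obtain ⟨c, ψ, hc, hψh⟩ := wB_plane V2 (by rw [hT3, h2]) hφ20 hS2 hall2 (by
    intro c hc
    exact hw₀ ⟨c, hc.symm⟩)
  -- `ψ` divides everything
  have hdY : ∀ u ∈ Y2, ψ ∣ u := by
    intro u hu
    rw [hYsup, Submodule.mem_sup] at hu
    obtain ⟨u, ⟨c', hc'⟩, u', hu', rfl⟩ := hu
    obtain ⟨a, rfl⟩ := Submodule.mem_span_singleton.mp hu'
    have hc'' : lf c' * φ2 = u := hc'
    refine dvd_add ?_ ?_
    · rw [← hc'', hc]
      exact ((dvd_refl ψ).mul_left _).mul_left _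
    · rw [smul_eq_C_mul]
      exact hψh.mul_left _
  have hdV : ∀ v ∈ V2, ψ ∣ v := by
    let Wd : Submodule ℂ (MvPolynomial (Fin n) ℂ) :=
      { carrier := {v | ψ ∣ sub g' v}
        add_mem' := fun {a b} ha hb => by
          have : ψ ∣ sub g' (a + b) := by rw [map_add]; exact dvd_add ha hb
          exact this
        zero_mem' := by
          have : ψ ∣ sub g' 0 := by rw [map_zero]; exact dvd_zero _
          exact this
        smul_mem' := fun c a ha => by
          have : ψ ∣ sub g' (c • a) := by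
            rw [map_smul, smul_eq_C_mul]
            exact Dvd.dvd.mul_left ha _
          exact this }
    have h4 : Submodule.span ℂ (Set.range p) ≤ Wd := by
      apply span_le_of_gen_dg (ε := fun _ => 1) s.hp (fun _ => Or.inl rfl)
      refine Gen.of_forall fun w => ?_
      have h5 : sp w (dg p fun _ => 1) = lf w * sp w A := by
        rw [sp_dg, lf_mul_sp s.hA]
        exact Finset.sum_congr rfl fun i _ => by simp
      rw [h5]
      change ψ ∣ sub g' (lf w * sp w A)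
      rw [map_mul]
      refine (hdY _ ?_).mul_left _
      rw [hYspan]
      exact Submodule.subset_span ⟨w, rfl⟩
    rintro _ ⟨v, hv, rfl⟩
    rw [s.hV] at hv
    exact h4 hv
  have hψu : IsUnit ψ := hT4 ψ hdV
  obtain ⟨a, -, ha⟩ := MvPolynomial.isUnit_iff_eq_C_of_isReduced.mp hψu
  -- degrees
  have hφhom : φ2.IsHomogeneous 1 := by
    rw [hc, ha]
    have := (isHomogeneous_lf c).mul (isHomogeneous_C (Fin 2) a)
    rwa [add_zero] at this
  have hV2D : V2 ≤ homogeneousSubmodule (Fin 2) ℂ D := by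
    rintro _ ⟨v, hv, rfl⟩
    exact isHomogeneous_sub g' (s.hVD hv)
  have hne1 : (Pi.single 0 1 : Fin 2 → ℂ) ≠ 0 := by
    intro h
    have := congrFun h 0
    simp at this
  have hφD : φ2.IsHomogeneous (D - 1 - 1) := by
    apply isHomogeneous_of_lf_mul hne1
    apply isHomogeneous_of_lf_mul hne1
    rw [← mul_assoc]
    exact hV2D (hS2 _ _)
  have h9 := hφD.inj_right hφhom hφ20
  have := s.hD
  omega

end Pool.Agent.Lib_helper97.Ebe
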