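import Pool.Agent.Lib_helper26.Ebe.wNS

/-! Common lemma for block wB of MP_ce7760_an (helper93). -/

namespace Pool.Agent.Lib_helper97.Ebe

open MvPolynomial Module Pool.Agent.Lib_helper26.Ebe Pool.Agent.Lib_helper26.SOS

variable {n j : ℕ}

theorem wB_pull {P : (Fin n × Fin j → ℂ) → Prop} (h : Gen P) :
    Gen (fun x : (Fin n × Fin (j + 1)) ⊕ Fin (j + 1) → ℂ =>
      P (mulg (x ∘ Sum.inl) (wNS_K (x ∘ Sum.inr)))) := by
  let F : Fin n × Fin j → MvPolynomial ((Fin n × Fin (j + 1)) ⊕ Fin (j + 1)) ℂ :=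
    fun y => X (Sum.inl (y.1, y.2.castSucc)) * X (Sum.inr (Fin.last j)) -
        X (Sum.inl (y.1, Fin.last j)) * X (Sum.inr y.2.castSucc)
  refine (h.pull F (fun x => ?_)).mono fun x hx => ?_
  · refine ⟨Sum.elim (fun y => (Fin.snoc (fun l : Fin j => x (y.1, l)) 0 :
      Fin (j + 1) → ℂ) y.2) (Fin.snoc (fun _ => 0) 1 : Fin (j + 1) → ℂ), ?_⟩
    rintro ⟨i, l⟩
    simp [F]
  · have e1 : (fun i => eval x (F i)) = mulg (x ∘ Sum.inl) (wNS_K (x ∘ Sum.inr)) := by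
      funext y
      rw [wNS_mulg]
      simp [F]
    rw [← e1]
    exact hx

/-- The generic form of the second order lemma at the level `j + 1`: `g` is a matrix with `j + 1`
columns, `b` a linear form on its image, `wNS_K b` is a parametrization of the kernel of `b`. -/
theorem wB_exists (V : Submodule ℂ (MvPolynomial (Fin n) ℂ)) [FiniteDimensional ℂ V]
    (hj : 1 ≤ j) (h : ¬ N2 V (j + 1))
    {Q : ((Fin n × Fin (j + 1)) ⊕ Fin (j + 1) → ℂ) → Prop} (hQ : Gen Q)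
    {R : (Fin n × Fin (j + 1) → ℂ) → Prop} (hR : Gen R)
    {T : (Fin n × Fin j → ℂ) → Prop} (hT : Gen T) :
    ∃ (g : Fin n × Fin (j + 1) → ℂ) (b : Fin (j + 1) → ℂ) (φ : MvPolynomial (Fin (j + 1)) ℂ),
      Q (Sum.elim g b) ∧ R g ∧ T (mulg g (wNS_K b)) ∧ b (Fin.last j) ≠ 0 ∧ ¬ lf b ∣ φ ∧
      (∀ a, ∃ u ∈ U (V.map (sub g).toLinearMap) b, lf b ∣ u - lf a * φ) ∧
      (∀ a c, ∃ v ∈ V.map (sub g).toLinearMap, lf b ∣ v - lf a * lf c * φ) ∧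
      ∃ y ∈ U (V.map (sub g).toLinearMap) b, y ≠ 0 ∧ lf b ∣ y := by
  have hGN := wGN V (j := j + 1) (by omega) h
  obtain ⟨g, ⟨⟨hg1, hg2⟩, hg3⟩, hg4⟩ :=
    (((hGN.pair.and (wB_pull hT).pair).and hQ.pair).and hR).exists
  have hY := wY (n := j + 1) (by omega) (V.map (sub g).toLinearMap) (by
    intro hc
    obtain ⟨b, ⟨v, hv, hv0, hd⟩, hb⟩ := (hg1.and hc).exists
    rw [Sum.elim_comp_inl] at hv
    rw [Sum.elim_comp_inr] at hd
    exact hv0 (hb v hv hd))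
  have hlast : Gen (fun b : Fin (j + 1) → ℂ => b (Fin.last j) ≠ 0) :=
    ⟨X (Fin.last j), X_ne_zero _, fun x hx => by rwa [eval_X] at hx⟩
  obtain ⟨b, ⟨⟨⟨φ, h1, h2, h3, h4⟩, hb⟩, hb2⟩, hb3⟩ :=
    (((hY.and hlast).and hg2).and hg3).exists
  exact ⟨g, b, φ, hb3, hg4, hb2, hb, h1, h2, h3, h4⟩

end Pool.Agent.Lib_helper97.Ebe
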