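import Pool.Agent.Lib_helper97.Ebe.XDefs

/-! Block wP4 of MP_ce7760_an (helper93): `exists_star` by chain gluing. -/

namespace Pool.Agent.Lib_helper97.Ebe

open MvPolynomial Module Pool.Agent.Lib_helper26.Ebe Pool.Agent.Lib_helper26.SOS

variable {n p e : ℕ}

theorem wP4_comp {τ σ : Type*} {P : (τ → ℂ) → Prop} (h : Gen P) {f : τ → σ}
    (hf : Function.Injective f) : Gen (fun x : σ → ℂ => P (x ∘ f)) := by
  obtain ⟨Φ, h0, hΦ⟩ := h
  refine ⟨rename f Φ, ?_, fun x hx => hΦ _ ?_⟩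
  · intro hc
    apply h0
    apply rename_injective _ hf
    rw [hc, map_zero]
  · rwa [eval_rename] at hx

/-- Replace column `j`. -/
def wP4_upd (j : Fin p) : Fin n × Fin p → (Fin n × Fin p) ⊕ (Fin n × Fin 1) :=
  fun y => if y.2 = j then Sum.inr (y.1, 0) else Sum.inl y

theorem wP4_upd_inj (j : Fin p) : Function.Injective (wP4_upd (n := n) j) := by
  rintro ⟨a, b⟩ ⟨c, d⟩ h
  unfold wP4_upd at h
  by_cases h1 : b = j
  · by_cases h2 : d = j
    · simp only [h1, h2, if_true, Sum.inr.injEq, Prod.mk.injEq, and_true] at h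
      rw [h1, h2, h]
    · simp only [h1, h2, if_true, if_false] at h
      exact absurd h (by simp)
  · by_cases h2 : d = j
    · simp only [h1, h2, if_true, if_false] at h
      exact absurd h (by simp)
    · simp only [h1, h2, if_false, Sum.inl.injEq] at h
      exact h

theorem wP4_range_le {k l : ℕ} {g : Fin n × Fin k → ℂ} {g' : Fin n × Fin l → ℂ}
    (h : ∀ j, (fun i => g (i, j)) ∈ Set.range (mv g')) :
    Set.range (mv g) ⊆ Set.range (mv g') := by
  rintro _ ⟨y, rfl⟩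
  rw [← coe_mvS, SetLike.mem_coe]
  have h1 : mv g y = ∑ j, y j • (fun i => g (i, j)) := by
    funext i
    rw [Finset.sum_apply]
    exact Finset.sum_congr rfl fun j _ => by
      rw [Pi.smul_apply, smul_eq_mul, mul_comm]
  rw [h1]
  refine Submodule.sum_mem _ fun j _ => Submodule.smul_mem _ _ ?_
  rw [← SetLike.mem_coe, coe_mvS]
  exact h j

theorem wP4_range_inl (x : (Fin n × Fin p) ⊕ (Fin n × Fin 1) → ℂ) :
    Set.range (mv (x ∘ Sum.inl)) ⊆ Set.range (mv (jn x)) := by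
  refine wP4_range_le fun j => ⟨Pi.single (Fin.castAdd 1 j) 1, ?_⟩
  rw [mv_single]
  funext i
  exact jn_left x i j

theorem wP4_range_upd (x : (Fin n × Fin p) ⊕ (Fin n × Fin 1) → ℂ) (j : Fin p) :
    Set.range (mv (x ∘ wP4_upd j)) ⊆ Set.range (mv (jn x)) := by
  refine wP4_range_le fun l => ?_
  by_cases hl : l = j
  · refine ⟨Pi.single (Fin.natAdd p 0) 1, ?_⟩
    rw [mv_single]
    funext i
    rw [jn_right]
    simp [wP4_upd, hl]
  · refine ⟨Pi.single (Fin.castAdd 1 l) 1, ?_⟩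
    rw [mv_single]
    funext i
    rw [jn_left]
    simp [wP4_upd, hl]

/-- The centre does not change if one column is replaced. -/
theorem wP4_step (U : Submodule ℂ (MvPolynomial (Fin n) ℂ)) [FiniteDimensional ℂ U]
    (hA : Gen (fun a : Fin n × Fin p → ℂ =>
      ∃ w, w ≠ 0 ∧ ∀ u ∈ van U (Set.range (mv a)), ∃ η, u = w * lf η))
    (hpp : rk U (p + 1) + 2 ≤ finrank ℂ U) (j : Fin p) :
    Gen (fun x : (Fin n × Fin p) ⊕ (Fin n × Fin 1) → ℂ =>
      ∃ w, w ≠ 0 ∧ (∀ u ∈ van U (Set.range (mv (x ∘ Sum.inl))), ∃ η, u = w * lf η) ∧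
        ∀ u ∈ van U (Set.range (mv (x ∘ wP4_upd j))), ∃ η, u = w * lf η) := by
  have hB : Gen (fun x : (Fin n × Fin p) ⊕ (Fin n × Fin 1) → ℂ =>
      2 ≤ finrank ℂ (van U (Set.range (mv (jn x))))) := by
    refine (Gen.jn (gen_rk U (p + 1))).mono fun x hx => ?_
    have h3 := finrank_map_add_van U (jn x)
    omega
  refine ((hA.fst.and (wP4_comp hA (wP4_upd_inj j))).and hB).mono fun x hx => ?_
  obtain ⟨⟨⟨w, hw, h1⟩, w', hw', h2⟩, h3⟩ := hx
  refine ⟨w, hw, h1, ?_⟩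
  obtain ⟨c, rfl⟩ := star_change hw hw' h3
    (fun u hu => h1 u (van_anti (wP4_range_inl x) hu))
    (fun u hu => h2 u (van_anti (wP4_range_upd x j) hu))
  intro u hu
  obtain ⟨η, rfl⟩ := h2 u hu
  exact ⟨c • η, by rw [lf_smul]; ring⟩

/-- The first `i` columns from the second matrix, the others from the first one. -/
def wP4_mix (n p i : ℕ) : Fin n × Fin p → (Fin n × Fin p) ⊕ (Fin n × Fin p) :=
  fun y => if (y.2 : ℕ) < i then Sum.inr y else Sum.inl y

/-- `mix i` together with the column `i` of the second matrix. -/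
def wP4_mixc (n : ℕ) {p : ℕ} (i : Fin p) :
    (Fin n × Fin p) ⊕ (Fin n × Fin 1) → (Fin n × Fin p) ⊕ (Fin n × Fin p) :=
  Sum.elim (wP4_mix n p i) (fun y => Sum.inr (y.1, i))

theorem wP4_mixc_inj (i : Fin p) : Function.Injective (wP4_mixc n i) := by
  have h1 : ∀ (y : Fin n × Fin p) (z : Fin n × Fin 1),
      wP4_mix n p i y ≠ Sum.inr (z.1, i) := by
    intro y z h
    unfold wP4_mix at h
    by_cases h1 : (y.2 : ℕ) < i
    · rw [if_pos h1, Sum.inr.injEq] at h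
      rw [h] at h1
      exact lt_irrefl _ h1
    · rw [if_neg h1] at h
      exact absurd h (by simp)
  rintro (y | y) (z | z) h
  · simp only [wP4_mixc, Sum.elim_inl, wP4_mix] at h
    by_cases h2 : (y.2 : ℕ) < i
    · by_cases h3 : (z.2 : ℕ) < i
      · rw [if_pos h2, if_pos h3, Sum.inr.injEq] at h
        rw [h]
      · rw [if_pos h2, if_neg h3] at h
        exact absurd h (by simp)
    · by_cases h3 : (z.2 : ℕ) < i
      · rw [if_neg h2, if_pos h3] at h
        exact absurd h (by simp)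
      · rw [if_neg h2, if_neg h3, Sum.inl.injEq] at h
        rw [h]
  · exact absurd h (h1 y z)
  · exact absurd h.symm (h1 z y)
  · simp only [wP4_mixc, Sum.elim_inr, Sum.inr.injEq, Prod.mk.injEq, and_true] at h
    congr 1
    exact Prod.ext h (Subsingleton.elim _ _)

theorem wP4_mixc_inl (i : Fin p) : wP4_mixc n i ∘ Sum.inl = wP4_mix n p i := rfl

theorem wP4_mixc_upd (i : Fin p) :
    wP4_mixc n i ∘ wP4_upd i = wP4_mix n p (i + 1) := by
  funext y
  simp only [Function.comp, wP4_upd]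
  by_cases h : y.2 = i
  · rw [if_pos h]
    simp only [wP4_mixc, Sum.elim_inr, wP4_mix]
    rw [if_pos (by rw [h]; omega)]
    congr 1
    exact Prod.ext rfl h.symm
  · rw [if_neg h]
    simp only [wP4_mixc, Sum.elim_inl, wP4_mix]
    have h' : (y.2 : ℕ) ≠ i := fun h' => h (Fin.ext h')
    by_cases h2 : (y.2 : ℕ) < i
    · rw [if_pos h2, if_pos (by omega)]
    · rw [if_neg h2, if_neg (by omega)]

theorem wP4_chain (U : Submodule ℂ (MvPolynomial (Fin n) ℂ)) [FiniteDimensional ℂ U]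
    (hA : Gen (fun a : Fin n × Fin p → ℂ =>
      ∃ w, w ≠ 0 ∧ ∀ u ∈ van U (Set.range (mv a)), ∃ η, u = w * lf η))
    (hp : rk U p + 2 ≤ finrank ℂ U)
    (hpp : rk U (p + 1) + 2 ≤ finrank ℂ U) (i : ℕ) (hi : i ≤ p) :
    Gen (fun x : (Fin n × Fin p) ⊕ (Fin n × Fin p) → ℂ =>
      ∃ w, w ≠ 0 ∧ (∀ u ∈ van U (Set.range (mv (x ∘ Sum.inl))), ∃ η, u = w * lf η) ∧
        ∀ u ∈ van U (Set.range (mv (x ∘ wP4_mix n p i))), ∃ η, u = w * lf η) := by
  induction i with
  | zero =>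
    refine hA.fst.mono fun x hx => ?_
    obtain ⟨w, hw, h1⟩ := hx
    refine ⟨w, hw, h1, ?_⟩
    have : x ∘ wP4_mix n p 0 = x ∘ Sum.inl := by
      funext y
      simp [wP4_mix]
    rw [this]
    exact h1
  | succ i ih =>
    have h1 := ih (by omega)
    have h2 := wP4_comp (wP4_step U hA hpp ⟨i, by omega⟩) (wP4_mixc_inj (n := n) ⟨i, by omega⟩)
    have hinj : Function.Injective (wP4_mix n p i) := by
      have := wP4_mixc_inj (n := n) (p := p) ⟨i, by omega⟩
      exact this.comp Sum.inl_injective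
    have h3 := wP4_comp (gen_rk U p) hinj
    refine ((h1.and h2).and h3).mono fun x hx => ?_
    obtain ⟨⟨⟨w, hw, h4, h5⟩, w', hw', h6, h7⟩, h8⟩ := hx
    have e1 : (x ∘ wP4_mixc n ⟨i, by omega⟩) ∘ Sum.inl = x ∘ wP4_mix n p i := rfl
    have e2 : (x ∘ wP4_mixc n ⟨i, by omega⟩) ∘ wP4_upd ⟨i, by omega⟩ =
        x ∘ wP4_mix n p (i + 1) := by
      rw [Function.comp_assoc, wP4_mixc_upd]
    rw [e1] at h6
    rw [e2] at h7
    have h9 := finrank_map_add_van U (x ∘ wP4_mix n p i)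
    obtain ⟨c, rfl⟩ := star_change hw hw' (by omega) h5 h6
    refine ⟨w, hw, h4, fun u hu => ?_⟩
    obtain ⟨η, rfl⟩ := h7 u hu
    exact ⟨c • η, by rw [lf_smul]; ring⟩

theorem wP4_centre {D : ℕ} (U : Submodule ℂ (MvPolynomial (Fin n) ℂ)) [FiniteDimensional ℂ U]
    (hU : U ≤ homogeneousSubmodule (Fin n) ℂ D) (he : 2 ≤ e)
    (hinj : rk U (p + e) = finrank ℂ U) (hpe : finrank ℂ U = rk U p + e)
    (hpp : rk U (p + 1) + 2 ≤ finrank ℂ U)
    (hstar : Gen (fun g : Fin n × Fin (p + e) → ℂ =>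
      ∃ w, w ≠ 0 ∧ ∀ η, lf η * w ∈ U.map (sub g).toLinearMap)) :
    ∃ w, w ≠ 0 ∧ Gen (fun a : Fin n × Fin p → ℂ =>
      ∀ u ∈ van U (Set.range (mv a)), ∃ η, u = w * lf η) := by
  have hA := gen_centre U hU he hinj hpe hstar
  have hC := wP4_chain U hA (by omega) hpp p le_rfl
  obtain ⟨a₀, ⟨⟨w, hw, ha₀⟩, hc⟩, hr⟩ := ((hA.and hC.pair).and (gen_rk U p)).exists
  refine ⟨w, hw, hc.mono fun a ha => ?_⟩
  obtain ⟨w', hw', h1, h2⟩ := ha
  have h3 := finrank_map_add_van U a₀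
  obtain ⟨c, rfl⟩ := star_change hw hw' (W := van U (Set.range (mv a₀))) (by omega) ha₀ h1
  intro u hu
  have e1 : Sum.elim a₀ a ∘ wP4_mix n p p = a := by
    funext y
    simp [wP4_mix]
  obtain ⟨η, rfl⟩ := h2 u (by rw [e1]; exact hu)
  exact ⟨c • η, by rw [lf_smul]; ring⟩

theorem wP4_pr {D : ℕ} (U : Submodule ℂ (MvPolynomial (Fin n) ℂ)) [FiniteDimensional ℂ U]
    (hU : U ≤ homogeneousSubmodule (Fin n) ℂ D) {q c : ℕ} (hqn : q ≤ n)
    (hκ : finrank ℂ U = q + c)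
    (hq : c + 4 ≤ q) (hr : ∀ t, c + 1 ≤ t → t ≤ q → rk U t = t + c) :
    ∃ (w : MvPolynomial (Fin n) ℂ) (W : Submodule ℂ (MvPolynomial (Fin n) ℂ)),
      w ≠ 0 ∧ W ≤ U ∧ q ≤ finrank ℂ W ∧ ∀ u ∈ W, ∃ η, u = w * lf η := by
  obtain ⟨e, rfl⟩ : ∃ e, q = (c + 1) + e := ⟨q - (c + 1), by omega⟩
  have h0 := hr (c + 1 + e) (by omega) le_rfl
  have h1 := hr (c + 1 + e - 1) (by omega) (by omega)
  have h2 := hr (c + 1 + e - 2) (by omega) (by omega)
  have h3 := hr (c + 1) le_rfl (by omega)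
  have h4 := hr (c + 1 + 1) (by omega) (by omega)
  have hstar := gen_star (τ := c + 1 + e) (by omega) U (by omega) (by omega)
  obtain ⟨w, hw, hgen⟩ := wP4_centre (p := c + 1) (e := e) U hU (by omega) (by omega)
    (by omega) (by omega) hstar
  let W : Submodule ℂ (MvPolynomial (Fin n) ℂ) := U ⊓ (L1 n).map (LinearMap.mulLeft ℂ w)
  have hWU : W ≤ U := inf_le_left
  have hfdW : FiniteDimensional ℂ W := Submodule.finiteDimensional_of_le hWU
  have hmem : ∀ u ∈ U, (∃ η, u = w * lf η) → u ∈ W := by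
    rintro _ hu ⟨η, rfl⟩
    exact ⟨hu, lf η, lf_mem_L1 η, rfl⟩
  refine ⟨w, W, hw, hWU, ?_, ?_⟩
  · obtain ⟨a, ⟨ha1, ha2⟩, ha3⟩ := ((hgen.and (gen_rk U (c + 1))).and (gen_rk W (c + 1))).exists
    have h5 := finrank_map_add_van U a
    have h6 := finrank_map_add_van W a
    have h7 : van U (Set.range (mv a)) ≤ van W (Set.range (mv a)) :=
      fun u hu => ⟨hmem u hu.1 (ha1 u hu), hu.2⟩
    have h8 := Submodule.finrank_mono h7
    have h9 := min_le_rk W (c + 1)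
    rcases min_choice (c + 1) (finrank ℂ W) with h10 | h10
    · rw [h10] at h9
      omega
    · rw [h10] at h9
      omega
  · rintro _ ⟨-, f, hf, rfl⟩
    obtain ⟨η, rfl⟩ := (mem_L1_iff f).mp hf
    exact ⟨η, rfl⟩

end Pool.Agent.Lib_helper97.Ebe
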